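import Pool.Agent.N20.DI.Stm
import Pool.Agent.Q90.WR.Rep

/-!
# DI/CL4: characters of given defect of a cyclic extension
-/

set_option autoImplicit false

open scoped Classical BigOperators

noncomputable section

namespace Pool.Agent.N833.DICL4

open Pool.Agent.N20.DI
open Pool.Agent.Y63.NV
open Pool.Agent.Y63.AWC (IsIrreducibleCharacter)
open Pool.Agent.R674.Tw (Fixes)
open Pool.Agent.Helper884.IC
open Finset

/-- the combinatorial core -/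
theorem core {X' Y' : Type} (X : Finset X') (Y : Finset Y') (mm : X' → Y' → ℕ) (nn : Y' → Y' → ℕ)
    (cM cN : ℕ) (hcN : 0 < cN) (hcM : 0 < cM)
    (ha : ∀ ψ ∈ Y, ∀ φ ∈ Y, cN * ∑ χ ∈ X, mm χ ψ * mm χ φ = nn ψ φ)
    (hb : ∀ ψ ∈ Y, ∀ φ ∈ Y, nn ψ φ ≠ 0 → ∀ χ ∈ X, mm χ φ = mm χ ψ)
    (hc : ∀ ψ ∈ Y, ∑ φ ∈ Y, nn ψ φ = cM)
    (hd : ∀ χ ∈ X, ∃ ψ ∈ Y, mm χ ψ ≠ 0)
    (he : ∑ ψ ∈ Y, nn ψ ψ ^ 2 = cM * cN * X.card) :
    (∀ χ ∈ X, ∀ ψ ∈ Y, mm χ ψ ≠ 0 → mm χ ψ = 1 ∧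
      (Y.filter fun φ => mm χ φ ≠ 0).card * nn ψ ψ = cM ∧
      ∀ φ ∈ Y, mm χ φ ≠ 0 → nn ψ φ ≠ 0) ∧
    ∀ χ ∈ X, ∑ φ ∈ Y, nn φ φ * mm χ φ ^ 2 = cM := by
  -- conjugacy
  have h1 : ∀ χ ∈ X, ∀ ψ ∈ Y, mm χ ψ ≠ 0 → ∀ φ ∈ Y, mm χ φ ≠ 0 → nn ψ φ ≠ 0 := by
    intro χ hχ ψ hψ h φ hφ h'
    rw [← ha ψ hψ φ hφ]
    refine Nat.mul_ne_zero hcN.ne' ?_
    intro h0
    have := (Finset.sum_eq_zero_iff_of_nonneg fun _ _ => Nat.zero_le _).1 h0 χ hχ
    exact Nat.mul_ne_zero h h' this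
  have h2 : ∀ ψ ∈ Y, ∀ φ ∈ Y, nn ψ φ ≠ 0 → nn ψ φ = nn ψ ψ ∧ nn φ φ = nn ψ ψ := by
    intro ψ hψ φ hφ h
    have h3 := hb ψ hψ φ hφ h
    constructor
    · rw [← ha ψ hψ φ hφ, ← ha ψ hψ ψ hψ]
      congr 1
      exact sum_congr rfl fun χ hχ => by rw [h3 χ hχ]
    · rw [← ha φ hφ φ hφ, ← ha ψ hψ ψ hψ]
      congr 1
      exact sum_congr rfl fun χ hχ => by rw [h3 χ hχ]
  have h4 : ∀ χ ∈ X, ∀ ψ ∈ Y, mm χ ψ ≠ 0 →
      (Y.filter fun φ => mm χ φ ≠ 0).card * nn ψ ψ = cM := by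
    intro χ hχ ψ hψ h
    rw [← hc ψ hψ, ← smul_eq_mul, ← sum_const, sum_filter]
    refine sum_congr rfl fun φ hφ => ?_
    split_ifs with h5
    · exact (h2 ψ hψ φ hφ (h1 χ hχ ψ hψ h φ hφ h5)).1.symm
    · by_contra h6
      apply h5
      rw [hb ψ hψ φ hφ (Ne.symm h6) χ hχ]
      exact h
  have h5 : ∀ χ ∈ X, ∀ ψ ∈ Y, mm χ ψ ≠ 0 →
      ∑ φ ∈ Y, nn φ φ * mm χ φ ^ 2 = cM * mm χ ψ ^ 2 := by
    intro χ hχ ψ hψ h
    rw [← h4 χ hχ ψ hψ h, mul_assoc, ← smul_eq_mul, ← sum_const, sum_filter]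
    refine sum_congr rfl fun φ hφ => ?_
    split_ifs with h5
    · have h6 := h1 χ hχ ψ hψ h φ hφ h5
      rw [(h2 ψ hψ φ hφ h6).2, hb ψ hψ φ hφ h6 χ hχ]
    · rw [not_not.1 h5]
      simp
  -- the total
  have h6 : ∑ χ ∈ X, ∑ φ ∈ Y, nn φ φ * mm χ φ ^ 2 = ∑ χ ∈ X, cM := by
    rw [sum_comm, sum_const, smul_eq_mul]
    have h7 : cN * ∑ φ ∈ Y, ∑ χ ∈ X, nn φ φ * mm χ φ ^ 2 = cN * (X.card * cM) := by
      rw [mul_sum, show cN * (X.card * cM) = cM * cN * X.card by ring, ← he]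
      refine sum_congr rfl fun φ hφ => ?_
      rw [← mul_sum, pow_two]
      have := ha φ hφ φ hφ
      calc cN * (nn φ φ * ∑ χ ∈ X, mm χ φ ^ 2) = nn φ φ * (cN * ∑ χ ∈ X, mm χ φ * mm χ φ) := by
            simp only [pow_two]
            ring
        _ = nn φ φ * nn φ φ := by rw [this]
    exact Nat.eq_of_mul_eq_mul_left hcN h7
  have h7 : ∀ χ ∈ X, cM ≤ ∑ φ ∈ Y, nn φ φ * mm χ φ ^ 2 := by
    intro χ hχ
    obtain ⟨ψ, hψ, h⟩ := hd χ hχ
    rw [h5 χ hχ ψ hψ h]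
    exact Nat.le_mul_of_pos_right _ (by positivity)
  have h8 : ∀ χ ∈ X, ∑ φ ∈ Y, nn φ φ * mm χ φ ^ 2 = cM := fun χ hχ =>
    ((Finset.sum_eq_sum_iff_of_le h7).1 h6.symm χ hχ).symm
  refine ⟨fun χ hχ ψ hψ h => ⟨?_, h4 χ hχ ψ hψ h, h1 χ hχ ψ hψ h⟩, h8⟩
  have h9 := h5 χ hχ ψ hψ h
  rw [h8 χ hχ] at h9
  have h10 : mm χ ψ ^ 2 = 1 := by
    have : cM * mm χ ψ ^ 2 = cM * 1 := by rw [← h9, mul_one]
    exact Nat.eq_of_mul_eq_mul_left hcM this
  exact (Nat.pow_eq_one.1 h10).resolve_right (by norm_num)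

section grp

variable {M : Type} [Group M] [Fintype M] {N : Subgroup M} [N.Normal] [Fintype N]

/-- the conjugate of a function on the normal subgroup -/
def cj (g : M) (ψ : N → ℂ) : N → ℂ := fun n => ψ (MulAut.conjNormal g n)

omit [Fintype M] [Fintype N] in
theorem cond_iff (ψ φ : N → ℂ) (m : M) :
    (∀ n n' : N, (n' : M) = m * n * m⁻¹ → ψ n' = φ n) ↔ cj m ψ = φ := by
  constructor
  · intro h
    funext n
    exact h n _ (MulAut.conjNormal_apply m n)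
  · rintro rfl n n' hn
    rw [cj]
    congr 1
    apply Subtype.ext
    rw [hn, MulAut.conjNormal_apply]

/-- the number of the elements that conjugate `ψ` to `φ` -/
def nn (ψ φ : N → ℂ) : ℕ := Nat.card {m : M // cj m ψ = φ}

omit [Fintype M] [Fintype N] in
theorem sN_eq (ψ : N → ℂ) : sN N ψ = nn ψ ψ := by
  rw [sN, nn]
  exact Nat.card_congr (Equiv.subtypeEquivRight fun m => cond_iff ψ ψ m)

/-- the multiplicities -/
def mm (χ : M → ℂ) (ψ : N → ℂ) : ℕ :=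
  if h : ∃ n : ℕ, B (fun n : N => χ n) ψ = n then h.choose else 0

omit [Fintype M] [N.Normal] in
theorem mm_spec {χ : M → ℂ} {ψ : N → ℂ} (hχ : IsIrrChar χ) (hψ : IsIrrChar ψ) :
    B (fun n : N => χ n) ψ = mm χ ψ := by
  have h : ∃ n : ℕ, B (fun n : N => χ n) ψ = n := by
    obtain ⟨V, _, _, _, ρ, -, rfl⟩ := hχ
    obtain ⟨W, _, _, _, σ, -, rfl⟩ := hψ
    exact Pool.Agent.Q90.WR.B_nat (ρ.comp N.subtype) σ
  rw [mm, dif_pos h]
  exact h.choose_spec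

omit [Fintype M] [Fintype N] in
theorem cj_irr {ψ : N → ℂ} (hψ : IsIrrChar ψ) (g : M) : IsIrrChar (cj g ψ) :=
  Pool.Agent.Y930.NV.irr_inflate (MulAut.conjNormal g : MulAut N).toMonoidHom
    (MulAut.conjNormal g : MulAut N).surjective hψ

omit [Fintype M] in
/-- sums against a conjugate -/
theorem sum_cj (f : M → ℂ) (hf : ∀ g x : M, f (g * x * g⁻¹) = f x) (g : M) (ψ : N → ℂ) :
    ∑ n : N, f n * cj g ψ n = ∑ n : N, f n * ψ n := by
  refine Fintype.sum_equiv (MulAut.conjNormal g : MulAut N).toEquiv _ _ fun n => ?_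
  show f n * ψ (MulAut.conjNormal g n) = f ((MulAut.conjNormal g n : N) : M) * _
  rw [MulAut.conjNormal_apply, hf]
  rfl

omit [Fintype M] in
theorem B_cj {χ : M → ℂ} (hχ : IsClass χ) (g : M) (ψ : N → ℂ) :
    B (fun n : N => χ n) (cj g ψ) = B (fun n : N => χ n) ψ := by
  rw [B_comm, B_comm _ ψ]
  unfold B
  congr 1
  have h := sum_cj (fun x : M => χ x⁻¹) (fun g x => by
    show χ (g * x * g⁻¹)⁻¹ = χ x⁻¹
    rw [show (g * x * g⁻¹)⁻¹ = g * x⁻¹ * g⁻¹ by group]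
    exact hχ x⁻¹ g) g ψ
  calc ∑ n : N, cj g ψ n * χ ((n⁻¹ : N) : M) = ∑ n : N, χ (n : M)⁻¹ * cj g ψ n :=
        sum_congr rfl fun n _ => mul_comm _ _
    _ = ∑ n : N, χ (n : M)⁻¹ * ψ n := h
    _ = ∑ n : N, ψ n * χ ((n⁻¹ : N) : M) := sum_congr rfl fun n _ => mul_comm _ _

omit [Fintype M] in
theorem mm_cj {χ : M → ℂ} (hχ : IsIrrChar χ) {ψ : N → ℂ} (hψ : IsIrrChar ψ) (g : M) :
    mm χ (cj g ψ) = mm χ ψ := by
  have h1 := mm_spec hχ hψ
  have h2 := mm_spec hχ (cj_irr hψ g)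
  obtain ⟨V, _, _, _, ρ, -, rfl⟩ := hχ
  rw [B_cj (fun g y => ρ.char_conj g y) g ψ, h1] at h2
  exact_mod_cast h2.symm

theorem sum_nn {ψ : N → ℂ} (hψ : IsIrrChar ψ) : ∑ φ ∈ Irr N, nn ψ φ = Nat.card M := by
  rw [Nat.card_eq_fintype_card, ← Finset.card_univ,
    Finset.card_eq_sum_card_fiberwise (f := fun m : M => cj m ψ) (t := Irr N)
      (fun m _ => mem_Irr.2 (cj_irr hψ m))]
  refine sum_congr rfl fun φ _ => ?_
  rw [nn, Nat.card_eq_fintype_card, Fintype.card_subtype]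

omit [N.Normal] in
/-- the expansion of the restriction -/
theorem res_expand {χ : M → ℂ} (hχ : IsIrrChar χ) :
    (fun n : N => χ n) = ∑ ψ ∈ Irr N, (mm χ ψ : ℂ) • ψ := by
  have h1 : IsClass (fun n : N => χ n) := fun g y => by
    have := hχ.isClass (g : M) (y : M)
    exact this
  rw [expand _ h1]
  refine sum_congr rfl fun ψ hψ => ?_
  rw [mm_spec hχ (mem_Irr.1 hψ)]

omit [N.Normal] in
theorem exists_mm {χ : M → ℂ} (hχ : IsIrrChar χ) : ∃ ψ ∈ Irr N, mm χ ψ ≠ 0 := by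
  by_contra hcon
  push Not at hcon
  obtain ⟨n, hn, h1⟩ := Pool.Agent.Q90.WR.deg_pos hχ
  have h2 := congrFun (res_expand (N := N) hχ) 1
  rw [sum_eq_zero fun ψ hψ => by rw [hcon ψ hψ, Nat.cast_zero, zero_smul]] at h2
  have h3 : χ 1 = 0 := h2
  rw [h1] at h3
  exact hn.ne' (by exact_mod_cast h3)

/-- what is known about the restrictions of the irreducible characters -/
structure Fact (M : Type) [Group M] [Fintype M] (N : Subgroup M) [N.Normal] [Fintype N] :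
    Prop where
  one : ∀ (χ : M → ℂ) (ψ : N → ℂ), IsIrrChar χ → IsIrrChar ψ → mm χ ψ ≠ 0 → mm χ ψ = 1
  card : ∀ (χ : M → ℂ) (ψ : N → ℂ), IsIrrChar χ → IsIrrChar ψ → mm χ ψ ≠ 0 →
    ((Irr N).filter fun φ => mm χ φ ≠ 0).card * nn ψ ψ = Nat.card M
  conj : ∀ (χ : M → ℂ) (ψ φ : N → ℂ), IsIrrChar χ → IsIrrChar ψ → IsIrrChar φ → mm χ ψ ≠ 0 →
    mm χ φ ≠ 0 → ∃ g : M, cj g ψ = φ
  tot : ∀ χ : M → ℂ, IsIrrChar χ → ∑ φ ∈ Irr N, nn φ φ * mm χ φ ^ 2 = Nat.card M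
  mac : ∀ ψ : N → ℂ, IsIrrChar ψ →
    Nat.card N * ∑ χ ∈ Irr M, mm χ ψ ^ 2 = nn ψ ψ

theorem fact (h1 : S_CL1) (h2 : S_CL2) (hcyc : IsCyclic (M ⧸ N)) : Fact M N := by
  have ha : ∀ ψ ∈ Irr N, ∀ φ ∈ Irr N,
      Nat.card N * ∑ χ ∈ Irr M, mm χ ψ * mm χ φ = nn ψ φ := by
    intro ψ hψ φ hφ
    have h3 := h1 M N ψ φ (mem_Irr.1 hψ) (mem_Irr.1 hφ)
    have h4 : Nat.card {m : M // ∀ n n' : N, (n' : M) = m * n * m⁻¹ → ψ n' = φ n} = nn ψ φ :=
      Nat.card_congr (Equiv.subtypeEquivRight fun m => cond_iff ψ φ m)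
    rw [h4, sum_congr rfl fun χ hχ => by
      rw [mm_spec (mem_Irr.1 hχ) (mem_Irr.1 hψ), mm_spec (mem_Irr.1 hχ) (mem_Irr.1 hφ)]] at h3
    exact_mod_cast h3
  have hex : ∀ ψ φ : N → ℂ, nn ψ φ ≠ 0 → ∃ g : M, cj g ψ = φ := by
    intro ψ φ h
    rw [nn] at h
    obtain ⟨⟨g, hg⟩⟩ := (Nat.card_pos_iff.1 (Nat.pos_of_ne_zero h)).1
    exact ⟨g, hg⟩
  have hb : ∀ ψ ∈ Irr N, ∀ φ ∈ Irr N, nn ψ φ ≠ 0 → ∀ χ ∈ Irr M, mm χ φ = mm χ ψ := by
    intro ψ hψ φ hφ h χ hχ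
    obtain ⟨g, rfl⟩ := hex ψ φ h
    exact mm_cj (mem_Irr.1 hχ) (mem_Irr.1 hψ) g
  have he : ∑ ψ ∈ Irr N, nn ψ ψ ^ 2 = Nat.card M * Nat.card N * (Irr M).card := by
    rw [← h2 M N hcyc]
    exact sum_congr rfl fun ψ _ => by rw [sN_eq]
  obtain ⟨h3, h4⟩ := core (Irr M) (Irr N) mm nn (Nat.card M) (Nat.card N) Nat.card_pos
    Nat.card_pos ha hb (fun ψ hψ => sum_nn (mem_Irr.1 hψ)) (fun χ hχ => exists_mm (mem_Irr.1 hχ)) he
  refine ⟨fun χ ψ hχ hψ h => (h3 χ (mem_Irr.2 hχ) ψ (mem_Irr.2 hψ) h).1,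
    fun χ ψ hχ hψ h => (h3 χ (mem_Irr.2 hχ) ψ (mem_Irr.2 hψ) h).2.1,
    fun χ ψ φ hχ hψ hφ h h' => ?_, fun χ hχ => h4 χ (mem_Irr.2 hχ), fun ψ hψ => ?_⟩
  · exact hex ψ φ ((h3 χ (mem_Irr.2 hχ) ψ (mem_Irr.2 hψ) h).2.2 φ (mem_Irr.2 hφ) h')
  · rw [← ha ψ (mem_Irr.2 hψ) ψ (mem_Irr.2 hψ)]
    simp only [pow_two]

/-- sums of the restriction against a class function -/
theorem Fact.sum_res (H : Fact M N) {χ : M → ℂ} {ψ : N → ℂ} (hχ : IsIrrChar χ)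
    (hψ : IsIrrChar ψ) (h : mm χ ψ ≠ 0) (f : M → ℂ) (hf : ∀ g x : M, f (g * x * g⁻¹) = f x) :
    ∑ n : N, f n * χ n = ((Irr N).filter fun φ => mm χ φ ≠ 0).card * ∑ n : N, f n * ψ n := by
  have h1 : ∀ n : N, χ n = ∑ φ ∈ (Irr N).filter fun φ => mm χ φ ≠ 0, φ n := by
    intro n
    have h2 := congrFun (res_expand (N := N) hχ) n
    rw [sum_filter, Finset.sum_apply] at *
    refine h2.trans (sum_congr rfl fun φ hφ => ?_)
    split_ifs with h3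
    · rw [H.one χ φ hχ (mem_Irr.1 hφ) h3, Nat.cast_one, one_smul]
    · rw [not_not.1 h3, Nat.cast_zero, zero_smul]
      rfl
  rw [sum_congr rfl fun n _ => by rw [h1 n, mul_sum], sum_comm, ← nsmul_eq_mul, ← sum_const]
  refine sum_congr rfl fun φ hφ => ?_
  obtain ⟨hφ1, hφ2⟩ := Finset.mem_filter.1 hφ
  obtain ⟨g, rfl⟩ := H.conj χ ψ φ hχ hψ (mem_Irr.1 hφ1) h hφ2
  exact sum_cj f hf g ψ

/-- the degree -/
theorem Fact.deg (H : Fact M N) {χ : M → ℂ} {ψ : N → ℂ} (hχ : IsIrrChar χ)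
    (hψ : IsIrrChar ψ) (h : mm χ ψ ≠ 0) :
    χ 1 = ((Irr N).filter fun φ => mm χ φ ≠ 0).card * ψ 1 := by
  have h1 := H.sum_res hχ hψ h (fun x => if x = 1 then 1 else 0) (fun g x => by
    by_cases hx : x = 1
    · rw [hx, mul_one, mul_inv_cancel]
    · rw [if_neg hx, if_neg]
      intro h2
      apply hx
      have := congrArg (fun y => g⁻¹ * y * g) h2
      simpa [mul_assoc] using this)
  have h2 : ∀ θ : N → ℂ, ∑ n : N, (if (n : M) = 1 then (1 : ℂ) else 0) * θ n = θ 1 := by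
    intro θ
    rw [sum_eq_single 1]
    · simp
    · intro n _ hn
      rw [if_neg, zero_mul]
      intro h3
      exact hn (Subtype.ext h3)
    · intro h3
      exact absurd (Finset.mem_univ _) h3
  rw [h2 ψ] at h1
  rw [← h1]
  exact (h2 fun n => χ n).symm

end grp

/-- **CLIFF** -/
theorem CL4 (h1 : S_CL1) (h2 : S_CL2) (h3 : S_CL3) : S_CLIFF := by
  intro p F _ red M _ _ N _ hcyc z hz hz0 c D
  have : Fintype M := Fintype.ofFinite M
  have : Fintype N := Fintype.ofFinite N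
  have H : Fact M N := fact h1 h2 hcyc
  -- the conditions agree
  have hcond : ∀ (χ : M → ℂ) (ψ : N → ℂ), IsIrrChar χ → IsIrrChar ψ → mm χ ψ ≠ 0 →
      ((HasDef p D χ ∧ centralValue red χ z = c) ↔
        (Dg p D (sN N ψ) ψ ∧ centralValue red ψ (fun n : N => z n) = c)) := by
    intro χ ψ hχ hψ h
    set t := ((Irr N).filter fun φ => mm χ φ ≠ 0).card with ht
    have hdeg := H.deg hχ hψ h
    have hcard := H.card χ ψ hχ hψ h
    rw [← ht] at hdeg hcard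
    have hcv : centralValue red χ z = centralValue red ψ (fun n : N => z n) :=
      h3 F red M N z hz hz0 χ ψ hχ hψ t hdeg fun f hf => H.sum_res hχ hψ h f hf
    rw [hcv]
    refine and_congr_left fun _ => ?_
    obtain ⟨a, ha, hψ1⟩ := Pool.Agent.Q90.WR.deg_pos hψ
    have hM : Nat.card M ≠ 0 := Nat.card_pos.ne'
    have ht0 : t ≠ 0 := by
      rintro h0
      rw [h0, zero_mul] at hcard
      exact hM hcard.symm
    have hs0 : nn ψ ψ ≠ 0 := by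
      rintro h0
      rw [h0, mul_zero] at hcard
      exact hM hcard.symm
    have f1 : (Nat.card M).factorization p = t.factorization p + (nn ψ ψ).factorization p := by
      rw [← hcard, Nat.factorization_mul ht0 hs0]
      rfl
    have f2 : (t * a).factorization p = t.factorization p + a.factorization p := by
      rw [Nat.factorization_mul ht0 ha.ne']
      rfl
    rw [HasDef, Dg, Dg, sN_eq]
    constructor
    · rintro ⟨n, hn, hD⟩
      refine ⟨a, hψ1, ?_⟩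
      have h4 : n = t * a := by
        rw [hdeg, hψ1] at hn
        exact_mod_cast hn.symm
      rw [h4, f1, f2] at hD
      omega
    · rintro ⟨n, hn, hD⟩
      refine ⟨t * a, ?_, ?_⟩
      · rw [hdeg, hψ1]
        push_cast
        rfl
      · have h4 : n = a := by
          rw [hψ1] at hn
          exact_mod_cast hn.symm
        rw [h4] at hD
        rw [f1, f2]
        omega
  -- both sides as finite sums
  have hK : Kd p red D z c =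
      ((Irr M).filter fun χ => HasDef p D χ ∧ centralValue red χ z = c).card := by
    have e : ∀ χ : M → ℂ, (IsIrreducibleCharacter χ ∧ HasDef p D χ ∧ centralValue red χ z = c) ↔
        χ ∈ (Irr M).filter fun χ => HasDef p D χ ∧ centralValue red χ z = c := by
      intro χ
      rw [Finset.mem_filter, mem_Irr]
      exact Iff.rfl
    rw [Kd, Nat.card_congr (Equiv.subtypeEquivRight e), Nat.card_eq_fintype_card,
      Fintype.card_coe]
  have hR : (∑ᶠ ψ : {ψ : N → ℂ // IsIrreducibleCharacter ψ ∧ Dg p D (sN N ψ) ψ ∧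
        centralValue red ψ (fun n : N => z n) = c}, (sN N ψ.1) ^ 2) =
      ∑ ψ ∈ (Irr N).filter fun ψ => Dg p D (sN N ψ) ψ ∧
        centralValue red ψ (fun n : N => z n) = c, nn ψ ψ ^ 2 := by
    have e : ∀ ψ : N → ℂ, (IsIrreducibleCharacter ψ ∧ Dg p D (sN N ψ) ψ ∧
        centralValue red ψ (fun n : N => z n) = c) ↔
        ψ ∈ (Irr N).filter fun ψ => Dg p D (sN N ψ) ψ ∧
          centralValue red ψ (fun n : N => z n) = c := by
      intro ψ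
      rw [Finset.mem_filter, mem_Irr]
      exact Iff.rfl
    rw [← Finset.sum_coe_sort, ← finsum_eq_sum_of_fintype,
      ← finsum_comp_equiv (Equiv.subtypeEquivRight e)]
    refine finsum_congr fun ψ => ?_
    rw [sN_eq]
    rfl
  rw [hK, hR]
  set X := (Irr M).filter fun χ => HasDef p D χ ∧ centralValue red χ z = c with hX
  set Y := (Irr N).filter fun ψ => Dg p D (sN N ψ) ψ ∧
        centralValue red ψ (fun n : N => z n) = c with hY
  have e1 : ∀ ψ ∈ Y, nn ψ ψ ^ 2 = Nat.card N * ∑ χ ∈ Irr M, nn ψ ψ * mm χ ψ ^ 2 := by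
    intro ψ hψ
    have h4 := H.mac ψ (mem_Irr.1 (Finset.mem_filter.1 hψ).1)
    calc nn ψ ψ ^ 2 = nn ψ ψ * nn ψ ψ := pow_two _
      _ = nn ψ ψ * (Nat.card N * ∑ χ ∈ Irr M, mm χ ψ ^ 2) := by rw [h4]
      _ = Nat.card N * (nn ψ ψ * ∑ χ ∈ Irr M, mm χ ψ ^ 2) := by ring
      _ = _ := by rw [mul_sum]
  rw [sum_congr rfl e1, ← mul_sum, sum_comm]
  have e2 : ∀ χ ∈ Irr M, ∑ ψ ∈ Y, nn ψ ψ * mm χ ψ ^ 2 =
      if HasDef p D χ ∧ centralValue red χ z = c then Nat.card M else 0 := by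
    intro χ hχ
    have hχ' := mem_Irr.1 hχ
    split_ifs with h4
    · rw [← H.tot χ hχ', hY, sum_filter]
      refine sum_congr rfl fun ψ hψ => ?_
      split_ifs with h5
      · rfl
      · by_contra h6
        have h7 : mm χ ψ ≠ 0 := by
          intro h0
          apply h6
          rw [h0]
          simp
        exact h5 ((hcond χ ψ hχ' (mem_Irr.1 hψ) h7).1 h4)
    · refine sum_eq_zero fun ψ hψ => ?_
      obtain ⟨hψ1, hψ2⟩ := Finset.mem_filter.1 hψ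
      have h7 : mm χ ψ = 0 := by
        by_contra h0
        exact h4 ((hcond χ ψ hχ' (mem_Irr.1 hψ1) h0).2 hψ2)
      rw [h7]
      simp
  rw [sum_congr rfl e2, ← sum_filter, sum_const, smul_eq_mul]
  ring

end Pool.Agent.N833.DICL4
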