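import Pool.Agent.N20.EW.Stm4
import Pool.Agent.R674.KB.Kdim

/-!
# The Knörr–Robinson equality without blocks (project EK, leaf KRC0)
-/

set_option autoImplicit false

open scoped Classical BigOperators

noncomputable section

namespace Pool.Agent.N833.EK

open Pool.Agent.Y63.NV
open Pool.Agent.Y63.KR
open Pool.Agent.Y63.AWC (IsIrreducibleCharacter numDefectZero)
open Pool.Agent.Helper884.IC (Irr mem_Irr)
open Pool.Agent.N20.EW

theorem cv_zero {F : Type} [Field F] (red : integralClosure ℤ ℂ →+* F) {J : Type} [Group J]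
    (χ : J → ℂ) (z : J → F) (hz : ∀ x, z x = 0) : centralValue red χ z = 0 := by
  unfold centralValue
  refine finsum_eq_zero_of_forall_eq_zero fun C => ?_
  rw [hz, zero_mul]

theorem card_irr (J : Type) [Group J] [Finite J] :
    Nat.card {χ : J → ℂ // IsIrreducibleCharacter χ} = Nat.card (ConjClasses J) := by
  have hF : Fintype J := Fintype.ofFinite J
  have h1 := Pool.Agent.R674.KB.card_eq (J := J)
  have h2 : Nat.card {χ : J → ℂ // IsIrreducibleCharacter χ} = Nat.card (Irr J) :=
    Nat.card_congr (Equiv.subtypeEquivRight fun χ => (mem_Irr (chi := χ)).symm)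
  rw [h2, Nat.card_eq_fintype_card, ← h1]
  convert (Nat.card_eq_fintype_card (α := ConjClasses J)).symm

theorem kn_zero {F : Type} [Field F] (red : integralClosure ℤ ℂ →+* F) {J : Type} [Group J]
    [Finite J] (z : J → F) (hz : ∀ x, z x = 0) : Kn red z 0 = Nat.card (ConjClasses J) := by
  rw [← card_irr J]
  unfold Kn
  exact Nat.card_congr (Equiv.subtypeEquivRight fun χ =>
    ⟨fun h => h.1, fun h => ⟨h, cv_zero red χ z hz⟩⟩)

theorem nw_zero (p : ℕ) {F : Type} [Field F] (red : integralClosure ℤ ℂ →+* F) {J : Type} [Group J]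
    (z : J → F) (hz : ∀ x, z x = 0) : Nw p red (⊥ : Subgroup J) z 0 = numDefectZero p J := by
  unfold Nw numDefectZero
  refine Nat.card_congr (Equiv.subtypeEquivRight fun χ => ?_)
  constructor
  · rintro ⟨h, _⟩
    refine ⟨h.irr, ?_⟩
    obtain ⟨n, h1, h2⟩ := h.defectZero
    refine ⟨n, h1, ?_⟩
    rw [Subgroup.card_bot, Nat.factorization_one, Finsupp.zero_apply, add_zero] at h2
    exact h2
  · rintro ⟨h, n, h1, h2⟩
    refine ⟨⟨h, ?_, n, h1, ?_⟩, cv_zero red χ z hz⟩
    · intro q hq x
      rw [Subgroup.mem_bot.mp hq, one_mul]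
    · rw [Subgroup.card_bot, Nat.factorization_one, Finsupp.zero_apply, add_zero]
      exact h2

theorem conj_congr {A B : Type} [Group A] [Group B] (e : A ≃* B) :
    Nat.card (ConjClasses A) = Nat.card (ConjClasses B) := by
  refine Nat.card_congr
    { toFun := ConjClasses.map e.toMonoidHom
      invFun := ConjClasses.map e.symm.toMonoidHom
      left_inv := ?_
      right_inv := ?_ }
  · intro c
    obtain ⟨x, rfl⟩ := ConjClasses.mk_surjective c
    change ConjClasses.mk (e.symm (e x)) = ConjClasses.mk x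
    rw [e.symm_apply_apply]
  · intro c
    obtain ⟨x, rfl⟩ := ConjClasses.mk_surjective c
    change ConjClasses.mk (e (e.symm x)) = ConjClasses.mk x
    rw [e.apply_symm_apply]

/-- **KRC0** -/
theorem KRC0 : S_KRC0 := by
  intro p _ F _ _ _ red H _ _
  have hfs : Fintype {σ : Set (Subgroup H) // IsPChain p σ} := Fintype.ofFinite _
  have h0 : (Nat.card H : ℤ) ≠ 0 := by exact_mod_cast Nat.card_pos.ne'
  have hsum := card_mul_alternatingSum (p := p) (G := H)
    (fun J => (Nat.card (ConjClasses J) : ℤ)) (by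
      rintro J K ⟨e⟩
      change (Nat.card (ConjClasses J) : ℤ) = (Nat.card (ConjClasses K) : ℤ)
      rw [conj_congr e])
  have h1 : KRz p red H (0 : H → F) 0 ↔
      alternatingSum p H (fun J => (Nat.card (ConjClasses J) : ℤ)) = (numDefectZero p H : ℤ) := by
    unfold KRz
    rw [nw_zero p red (0 : H → F) (fun x => rfl), finsum_eq_sum_of_fintype]
    have h2 : ∑ σ : {σ : Set (Subgroup H) // IsPChain p σ}, (-1 : ℤ) ^ σ.1.ncard *
        ((Nat.card (chainStabilizer σ.1) : ℤ) *
          Kn red (fun x : chainStabilizer σ.1 => (0 : H → F) x) 0) =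
        (Nat.card H : ℤ) * alternatingSum p H (fun J => (Nat.card (ConjClasses J) : ℤ)) := by
      rw [hsum]
      refine Finset.sum_congr rfl fun σ _ => ?_
      rw [kn_zero red (fun x : chainStabilizer σ.1 => (0 : H → F) x) (fun x => rfl)]
    rw [h2]
    exact ⟨fun h => mul_left_cancel₀ h0 h, fun h => by rw [h]⟩
  rw [h1]
  unfold KRC
  have h := altSum_classes (p := p) (G := H)
  constructor
  · intro h2
    rw [h2] at h
    have : ((alternatingSum p H (fun J => (Nat.card (ConjClasses J) : ℤ)) : ℤ) : ℚ) =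
      ((numDefectZero p H : ℤ) : ℚ) := by
      rw [h]; push_cast; ring
    exact_mod_cast this
  · intro h2
    rw [h2] at h
    push_cast at h
    linarith

end Pool.Agent.N833.EK
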