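import Mathlib
import Pool.Agent.N646.BX.Stm

/-!
# Project BX (helper646), part SK: from windows to cells (helper833)
-/

set_option autoImplicit false

namespace Pool.Agent.N833.BX

open Finset
open Pool.Agent.N646.BX

/-- the number of the elements in a cell -/
def cell (m l : ℕ) (X : Finset ℤ) (a b : ℕ) : ℕ :=
  ((range l).filter (fun t : ℕ => ((a + m * (b * l + t) : ℕ) : ℤ) ∈ X)).card

lemma inj_cell {m l a b t a' b' t' : ℕ} (ha : a < m) (ha' : a' < m) (ht : t < l) (ht' : t' < l)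
    (h : a + m * (b * l + t) = a' + m * (b' * l + t')) : a = a' ∧ b = b' ∧ t = t' := by
  have h1 : a = a' := by
    have := congrArg (· % m) h
    simp only [Nat.add_mul_mod_self_left, Nat.mod_eq_of_lt ha, Nat.mod_eq_of_lt ha'] at this
    exact this
  subst h1
  have hm : 0 < m := by omega
  have h2 : b * l + t = b' * l + t' := Nat.eq_of_mul_eq_mul_left hm (by omega)
  have h3 : b = b' := by
    rcases lt_trichotomy b b' with h4 | h4 | h4
    · have : (b + 1) * l ≤ b' * l := Nat.mul_le_mul_right l h4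
      rw [Nat.succ_mul] at this
      omega
    · exact h4
    · have : (b' + 1) * l ≤ b * l := Nat.mul_le_mul_right l h4
      rw [Nat.succ_mul] at this
      omega
  subst h3
  exact ⟨rfl, rfl, by omega⟩

lemma sum_cell_le (m l : ℕ) (X : Finset ℤ) (A B : Finset ℕ) (P : ℤ → Prop) [DecidablePred P]
    (hA : ∀ a ∈ A, a < m)
    (hP : ∀ a ∈ A, ∀ b ∈ B, ∀ t < l, P ((a + m * (b * l + t) : ℕ) : ℤ)) :
    ∑ a ∈ A, ∑ b ∈ B, cell m l X a b ≤ (X.filter P).card := by
  have h1 : ∑ a ∈ A, ∑ b ∈ B, cell m l X a b = ((A ×ˢ B ×ˢ range l).filter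
      (fun p : ℕ × ℕ × ℕ => ((p.1 + m * (p.2.1 * l + p.2.2) : ℕ) : ℤ) ∈ X)).card := by
    rw [card_filter, sum_product]
    refine sum_congr rfl fun a _ => ?_
    rw [sum_product]
    refine sum_congr rfl fun b _ => ?_
    rw [cell, card_filter]
  rw [h1]
  refine card_le_card_of_injOn
    (fun p : ℕ × ℕ × ℕ => ((p.1 + m * (p.2.1 * l + p.2.2) : ℕ) : ℤ)) ?_ ?_
  · rintro ⟨a, b, t⟩ hp
    rw [mem_coe, mem_filter, mem_product, mem_product, mem_range] at hp
    rw [mem_coe, mem_filter]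
    exact ⟨hp.2, hP a hp.1.1 b hp.1.2.1 t hp.1.2.2⟩
  · rintro ⟨a, b, t⟩ hp ⟨a', b', t'⟩ hp' h
    rw [mem_coe, mem_filter, mem_product, mem_product, mem_range] at hp hp'
    have h2 : a + m * (b * l + t) = a' + m * (b' * l + t') := Nat.cast_injective (R := ℤ) h
    obtain ⟨h3, h4, h5⟩ := inj_cell (hA a hp.1.1) (hA a' hp'.1.1) hp.1.2.2 hp'.1.2.2 h2
    have h5' : t = t' := h5
    rw [h3, h4, h5']

lemma elem_lt {m l a b t : ℕ} (ha : a < m) (ht : t < l) :
    a + m * (b * l + t) < m * l * (b + 1) := by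
  have h1 : b * l + t + 1 ≤ l * (b + 1) := by nlinarith
  have h2 : m * (b * l + t + 1) ≤ m * (l * (b + 1)) := Nat.mul_le_mul_left m h1
  calc a + m * (b * l + t) < m + m * (b * l + t) := by omega
    _ = m * (b * l + t + 1) := by ring
    _ ≤ m * (l * (b + 1)) := h2
    _ = m * l * (b + 1) := by ring

lemma le_elem (m l a b t : ℕ) : m * l * b ≤ a + m * (b * l + t) := by
  have : m * (b * l) ≤ m * (b * l + t) := Nat.mul_le_mul_left m (by omega)
  calc m * l * b = m * (b * l) := by ring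
    _ ≤ a + m * (b * l + t) := by omega

lemma equi_of_cell {m l K rs : ℕ} (hm : 1 ≤ m) (hl : 1 ≤ l) (hK : 1 ≤ K) {β β' : ℝ}
    (hβ : β' * K ≤ β * (K - 1)) {X : Finset ℤ}
    (hX : ∀ a < m, ∀ b < rs, β * l ≤ (cell m l X a b : ℝ)) :
    Equi m (K * (m * l)) β' X (m * rs * l) := by
  intro u a hu huw
  obtain ⟨U, rfl⟩ := Int.eq_ofNat_of_zero_le hu
  have hml : 0 < m * l := Nat.mul_pos hm hl
  obtain ⟨q, hq⟩ : ∃ q, q = (U + m * l - 1) / (m * l) := ⟨_, rfl⟩
  have h1 : m * l * q ≤ U + m * l - 1 := by rw [hq]; exact Nat.mul_div_le _ _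
  have h2 : U + m * l - 1 < m * l * (q + 1) := by rw [hq]; exact Nat.lt_mul_div_succ _ hml
  have h2' : U ≤ m * l * q := by
    rw [Nat.mul_succ] at h2
    omega
  have hm0 : (0 : ℤ) < m := by exact_mod_cast hm
  obtain ⟨a', ha'⟩ := Int.eq_ofNat_of_zero_le (Int.emod_nonneg a hm0.ne')
  have ha'm : a' < m := by
    have := Int.emod_lt_of_pos a hm0
    rw [ha'] at this
    exact_mod_cast this
  have huw' : U + K * (m * l) ≤ m * rs * l := by exact_mod_cast huw
  have hb : ∀ b ∈ Ico q (q + (K - 1)), m * l * (b + 1) < U + K * (m * l) := by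
    intro b hb
    rw [mem_Ico] at hb
    have h3 : m * l * (b + 1) ≤ m * l * (q + (K - 1)) := Nat.mul_le_mul_left _ hb.2
    have h4 : m * l * (q + (K - 1)) + m * l = m * l * q + K * (m * l) := by
      obtain ⟨K', rfl⟩ : ∃ K', K = K' + 1 := ⟨K - 1, by omega⟩
      rw [Nat.add_sub_cancel]
      ring
    omega
  have hbrs : ∀ b ∈ Ico q (q + (K - 1)), b < rs := by
    intro b hb'
    have h3 := hb b hb'
    have h4 : m * l * (b + 1) < m * l * rs := by
      calc m * l * (b + 1) < U + K * (m * l) := h3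
        _ ≤ m * rs * l := huw'
        _ = m * l * rs := by ring
    have h5 := Nat.lt_of_mul_lt_mul_left h4
    omega
  have hsum := sum_cell_le m l X {a'} (Ico q (q + (K - 1)))
    (fun x => (U : ℤ) ≤ x ∧ x < (U : ℤ) + ((K * (m * l) : ℕ) : ℤ) ∧ x ≡ a [ZMOD m])
    (by
      intro a'' h
      rw [mem_singleton] at h
      rw [h]
      exact ha'm)
    (by
      intro a'' h b hb' t ht
      rw [mem_singleton] at h
      subst h
      have h3 := hb b hb'
      have h4 := elem_lt (b := b) ha'm ht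
      have h5 := le_elem m l a'' b t
      have h6 : m * l * q ≤ m * l * b := Nat.mul_le_mul_left _ (mem_Ico.1 hb').1
      refine ⟨?_, ?_, ?_⟩
      · have : U ≤ a'' + m * (b * l + t) := by omega
        exact_mod_cast this
      · have : a'' + m * (b * l + t) < U + K * (m * l) := by omega
        exact_mod_cast this
      · have h7 : (a'' : ℤ) ≡ a [ZMOD m] := by
          have h8 : ((a'' : ℕ) : ℤ) = a % (m : ℤ) := ha'.symm
          rw [h8]
          exact Int.mod_modEq a m
        have h8 : ((a'' + m * (b * l + t) : ℕ) : ℤ) ≡ (a'' : ℤ) [ZMOD m] := by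
          push_cast
          exact Int.modEq_iff_dvd.2 ⟨-(b * l + t), by ring⟩
        exact h8.trans h7)
  rw [sum_singleton] at hsum
  have h9 : (β * l) * ((K : ℝ) - 1) ≤ ((∑ b ∈ Ico q (q + (K - 1)), cell m l X a' b : ℕ) : ℝ) := by
    rw [Nat.cast_sum]
    have h10 : ∑ _b ∈ Ico q (q + (K - 1)), (β * l) ≤
        ∑ b ∈ Ico q (q + (K - 1)), (cell m l X a' b : ℝ) :=
      sum_le_sum fun b hb' => hX a' ha'm b (hbrs b hb')
    rw [sum_const, Nat.card_Ico, nsmul_eq_mul] at h10
    have h11 : ((q + (K - 1) - q : ℕ) : ℝ) = (K : ℝ) - 1 := by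
      have : q + (K - 1) - q = K - 1 := by omega
      rw [this, Nat.cast_sub hK, Nat.cast_one]
    rw [h11] at h10
    linarith
  have h12 : ((∑ b ∈ Ico q (q + (K - 1)), cell m l X a' b : ℕ) : ℝ) ≤
      ((X.filter (fun x => (U : ℤ) ≤ x ∧ x < (U : ℤ) + ((K * (m * l) : ℕ) : ℤ) ∧
        x ≡ a [ZMOD m])).card : ℝ) := by exact_mod_cast hsum
  have hm' : (0 : ℝ) < m := by exact_mod_cast hm
  have hl' : (0 : ℝ) < l := by exact_mod_cast hl
  calc β' * ((K * (m * l) : ℕ) : ℝ) = (β' * K) * (m * l) := by push_cast; ring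
    _ ≤ (β * (K - 1)) * (m * l) := mul_le_mul_of_nonneg_right hβ (by positivity)
    _ = m * ((β * l) * ((K : ℝ) - 1)) := by ring
    _ ≤ m * _ := mul_le_mul_of_nonneg_left (h9.trans h12) hm'.le

lemma exists_e (k : ℕ) {β ε : ℝ} (hβ : 0 < β) (hε : 0 < ε) : ∃ e : ℝ, 0 < e ∧ e ≤ β / 4 ∧
    (k + 1) * β ^ k - ε / 2 ≤ (k + 1) * (β - e) ^ k - k * (β - e) ^ (k - 1) * e := by
  have hc : Continuous fun e : ℝ => ((k : ℝ) + 1) * (β - e) ^ k - k * (β - e) ^ (k - 1) * e := by
    fun_prop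
  have h1 : Filter.Tendsto (fun e : ℝ => ((k : ℝ) + 1) * (β - e) ^ k - k * (β - e) ^ (k - 1) * e)
      (nhds 0) (nhds (((k : ℝ) + 1) * (β - 0) ^ k - k * (β - 0) ^ (k - 1) * 0)) := hc.tendsto 0
  rw [sub_zero, mul_zero, sub_zero] at h1
  have h2 := h1.eventually (eventually_gt_nhds (b := ((k : ℝ) + 1) * β ^ k - ε / 2) (by linarith))
  rw [Metric.eventually_nhds_iff] at h2
  obtain ⟨d, hd, h3⟩ := h2
  refine ⟨min (d / 2) (β / 4), lt_min (by linarith) (by linarith), min_le_right _ _, ?_⟩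
  refine (h3 ?_).le
  have h4 : 0 < min (d / 2) (β / 4) := lt_min (by linarith) (by linarith)
  rw [Real.dist_eq, sub_zero, abs_of_pos h4]
  exact lt_of_le_of_lt (min_le_left _ _) (by linarith)

theorem main (h : ∀ k, S_KK k) : ∀ k, S_SK k := by
  intro k β ε hβ hβ2 hε
  obtain ⟨e, he0, he1, he2⟩ := exists_e k hβ hε
  obtain ⟨β', hβ'⟩ : ∃ β', β' = β - e := ⟨_, rfl⟩
  rw [← hβ'] at he2
  have hβ'0 : 0 < β' := by rw [hβ']; linarith
  have hβ'2 : β' ≤ 1 / 2 := by rw [hβ']; linarith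
  obtain ⟨K, hK⟩ := exists_nat_ge (1 / e + 1)
  have hK1 : 1 ≤ K := by
    have : (1 : ℝ) ≤ K := le_trans (by have := one_div_pos.2 he0; linarith) hK
    exact_mod_cast this
  obtain ⟨s, hs⟩ := exists_nat_ge (2 / e + 3)
  have hs3 : 3 ≤ s := by
    have : (3 : ℝ) ≤ s := le_trans (by have := div_pos two_pos he0; linarith) hs
    exact_mod_cast this
  have hs3' : (3 : ℝ) ≤ s := by exact_mod_cast hs3
  have hs0 : (0 : ℝ) < s := by linarith
  obtain ⟨m, hm, ω, c₂, hω, hc₂, n₁, hKK⟩ := h k β' (ε / 2) (β' / 2) (1 / s) hβ'0 hβ'2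
    (by linarith) (by linarith) (by positivity)
  obtain ⟨r, hr⟩ := exists_nat_ge ((K : ℝ) / ω + 1)
  have hr1 : 1 ≤ r := by
    have : (1 : ℝ) ≤ r := le_trans (by
      have : 0 ≤ (K : ℝ) / ω := by positivity
      linarith) hr
    exact_mod_cast this
  obtain ⟨n₂, hn₂⟩ := exists_nat_ge (1 / e + 2 / β' + 1)
  refine ⟨m, r, s, hm, hr1, by omega, c₂, hc₂, max n₁ n₂, fun l hl X hX hcell => ?_⟩
  have hln1 : n₁ ≤ l := le_trans (le_max_left _ _) hl
  have hln2 : (1 / e + 2 / β' + 1 : ℝ) ≤ l :=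
    hn₂.trans (by exact_mod_cast le_trans (le_max_right _ _) hl)
  have he0' := one_div_pos.2 he0
  have hb0' : 0 < 2 / β' := by positivity
  have hl1' : (1 : ℝ) ≤ l := by linarith
  have hl1 : 1 ≤ l := by exact_mod_cast hl1'
  obtain ⟨L, hL⟩ : ∃ L, L = m * (r * s) * l := ⟨_, rfl⟩
  obtain ⟨T, hT⟩ : ∃ T, T = m * r * l := ⟨_, rfl⟩
  rw [← hL] at hX ⊢
  rw [← hT]
  have hLT : L = s * T := by rw [hL, hT]; ring
  have hLT' : (L : ℝ) = s * T := by rw [hLT]; push_cast; ring
  have hlT : l ≤ T := by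
    rw [hT]
    exact Nat.le_mul_of_pos_left l (Nat.mul_pos hm hr1)
  have hTL : T ≤ L := by
    rw [hLT]
    exact Nat.le_mul_of_pos_left T (by omega)
  have hlL : (l : ℝ) ≤ L := by exact_mod_cast hlT.trans hTL
  have hT0 : (0 : ℝ) ≤ T := Nat.cast_nonneg T
  have hL0 : (0 : ℝ) < L := by linarith
  -- the set `Y`
  have hZ : β * (m * (r * (s - 2)) * l) ≤
      (((X 0).filter (fun x : ℤ => x < (L : ℤ) - 2 * T)).card : ℝ) := by
    have h1 := sum_cell_le m l (X 0) (range m) (range (r * (s - 2)))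
      (fun x : ℤ => x < (L : ℤ) - 2 * T) (fun a ha => mem_range.1 ha)
      (by
        intro a ha b hb t ht
        rw [mem_range] at ha hb
        have h2 := elem_lt (b := b) ha ht
        have h3 : m * l * (b + 1) ≤ m * l * (r * (s - 2)) := Nat.mul_le_mul_left _ hb
        have h4 : m * l * (r * (s - 2)) + 2 * T = L := by
          obtain ⟨s', rfl⟩ : ∃ s', s = s' + 2 := ⟨s - 2, by omega⟩
          rw [Nat.add_sub_cancel, hL, hT]
          ring
        have h5 : a + m * (b * l + t) + 2 * T < L := by omega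
        have h6 : ((a + m * (b * l + t) : ℕ) : ℤ) + 2 * T < L := by exact_mod_cast h5
        linarith)
    have h2 : ∑ a ∈ range m, ∑ b ∈ range (r * (s - 2)), (β * l) ≤
        ((∑ a ∈ range m, ∑ b ∈ range (r * (s - 2)), cell m l (X 0) a b : ℕ) : ℝ) := by
      push_cast
      refine sum_le_sum fun a ha => sum_le_sum fun b hb => ?_
      rw [mem_range] at ha hb
      refine hcell 0 a ha b (lt_of_lt_of_le hb ?_)
      exact Nat.mul_le_mul_left r (by omega)
    rw [sum_const, sum_const, card_range, card_range, nsmul_eq_mul, nsmul_eq_mul] at h2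
    have h3 : ((r * (s - 2) : ℕ) : ℝ) = r * (s - 2) := by
      rw [Nat.cast_mul, Nat.cast_sub (by omega)]
      norm_num
    rw [h3] at h2
    calc β * (m * (r * (s - 2)) * l) = m * (r * (s - 2) * (β * l)) := by ring
      _ ≤ _ := h2
      _ ≤ _ := by exact_mod_cast h1
  have hm' : (0 : ℝ) < m := by exact_mod_cast hm
  have hr' : (0 : ℝ) < r := by exact_mod_cast hr1
  have hes : 2 ≤ e * s := by
    have h1 : 2 / e ≤ s := by linarith
    rw [div_le_iff₀ he0] at h1
    linarith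
  have hfl : ⌊β' * L⌋₊ ≤ ((X 0).filter (fun x : ℤ => x < (L : ℤ) - 2 * T)).card := by
    have h1 : (⌊β' * L⌋₊ : ℝ) ≤ β' * L := Nat.floor_le (by positivity)
    have h2 : β' * L ≤ β * (m * (r * (s - 2)) * l) := by
      have h3 : (L : ℝ) = m * r * l * s := by rw [hL]; push_cast; ring
      have h4 : β' * s ≤ β * (s - 2) := by
        rw [hβ']
        nlinarith
      calc β' * L = (β' * s) * (m * r * l) := by rw [h3]; ring
        _ ≤ (β * (s - 2)) * (m * r * l) := mul_le_mul_of_nonneg_right h4 (by positivity)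
        _ = β * (m * (r * (s - 2)) * l) := by ring
    exact_mod_cast h1.trans (h2.trans hZ)
  obtain ⟨Y, hY, hYc⟩ := Finset.exists_subset_card_eq hfl
  have hYX : Y ⊆ X 0 := hY.trans (filter_subset _ _)
  have hYlow : β' * L - 1 ≤ (Y.card : ℝ) := by
    rw [hYc]
    exact (Nat.sub_one_lt_floor _).le
  have hYup : (Y.card : ℝ) ≤ β' * L := by
    rw [hYc]
    exact Nat.floor_le (by positivity)
  have heL : 1 ≤ e * L := by
    have h1 : 1 / e ≤ L := by linarith
    rw [div_le_iff₀ he0] at h1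
    linarith
  have hbL : 2 ≤ β' * L := by
    have h1 : 2 / β' ≤ L := by linarith
    rw [div_le_iff₀ hβ'0] at h1
    linarith
  -- application
  have hw : ((K * (m * l) : ℕ) : ℝ) ≤ ω * L := by
    have h1 : (K : ℝ) ≤ ω * r := by
      have h2 : (K : ℝ) / ω ≤ r := by linarith
      rw [div_le_iff₀ hω] at h2
      linarith
    have h3 : (L : ℝ) = m * r * l * s := by rw [hL]; push_cast; ring
    have h4 : (K : ℝ) ≤ ω * r * s := by
      have : 0 < ω * r := by positivity
      nlinarith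
    rw [h3]
    push_cast
    calc (K : ℝ) * (m * l) ≤ (ω * r * s) * (m * l) :=
          mul_le_mul_of_nonneg_right h4 (by positivity)
      _ = ω * (m * r * l * s) := by ring
  have hmain := hKK L T (hln1.trans (hlT.trans hTL))
    (by rw [hLT', one_div, inv_mul_cancel_left₀ hs0.ne'])
    (by rw [hLT]; exact Nat.mul_le_mul_right T (by omega)) m (K * (m * l)) hm (dvd_refl m)
    (Nat.mul_pos hK1 (Nat.mul_pos hm hl1)) hw (fun j => X j.succ) Y (fun j => hX j.succ)
    (by
      intro x hx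
      have h1 := mem_Ico.1 (hX 0 (hYX hx))
      have h2 := (mem_filter.1 (hY hx)).2
      exact mem_Ico.2 ⟨h1.1, h2⟩)
    (by linarith) hYup
    (by
      intro j
      rw [hL]
      refine equi_of_cell hm hl1 hK1 ?_ (fun a ha b hb => hcell j.succ a ha b hb)
      have h1 : 1 ≤ e * K := by
        have h2 : 1 / e ≤ K := by linarith
        rw [div_le_iff₀ he0] at h2
        linarith
      rw [hβ']
      nlinarith)
  have hcoef : (k + 1) * β ^ k - ε ≤
      β' ^ k + k * β' ^ (k - 1) * ((Y.card : ℝ) / L) - ε / 2 := by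
    have h1 : β' - e ≤ (Y.card : ℝ) / L := by
      rw [le_div_iff₀ hL0]
      nlinarith
    have h2 : (k : ℝ) * β' ^ (k - 1) * (β' - e) ≤ k * β' ^ (k - 1) * ((Y.card : ℝ) / L) :=
      mul_le_mul_of_nonneg_left h1 (by positivity)
    have h3 : (k : ℝ) * β' ^ (k - 1) * β' = k * β' ^ k := by
      rcases Nat.eq_zero_or_pos k with h4 | h4
      · rw [h4]; simp
      · obtain ⟨k', rfl⟩ : ∃ k', k = k' + 1 := ⟨k - 1, by omega⟩
        rw [Nat.add_sub_cancel, pow_succ]
        ring
    have h4 : (k : ℝ) * β' ^ (k - 1) * (β' - e) = k * β' ^ k - k * β' ^ (k - 1) * e := by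
      rw [mul_sub, h3]
    rw [h4] at h2
    linarith
  calc ((k + 1) * β ^ k - ε) * (T : ℝ) ^ k
      ≤ (β' ^ k + k * β' ^ (k - 1) * ((Y.card : ℝ) / L) - ε / 2) * (T : ℝ) ^ k :=
        mul_le_mul_of_nonneg_right hcoef (by positivity)
    _ ≤ _ := hmain
    _ ≤ _ := by
        have hsub : ((Fintype.piFinset (fun _ : Fin k => Ico 0 (T : ℤ))).filter
            (fun h => c₂ * L ≤ (repV (fun j : Fin k => X j.succ) Y h : ℝ))) ⊆
            ((Fintype.piFinset (fun _ : Fin k => Ico 0 (T : ℤ))).filter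
            (fun h => c₂ * L ≤ (repV (fun j : Fin k => X j.succ) (X 0) h : ℝ))) := by
          intro h hh
          rw [mem_filter] at hh ⊢
          refine ⟨hh.1, hh.2.trans ?_⟩
          have : repV (fun j : Fin k => X j.succ) Y h ≤
              repV (fun j : Fin k => X j.succ) (X 0) h := by
            unfold repV
            exact card_le_card (filter_subset_filter _ hYX)
          exact_mod_cast this
        exact_mod_cast card_le_card hsub

end Pool.Agent.N833.BX
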