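import Pool.Agent.N657.QR.Stm

/-!
# QR/E2P: the energy of a product of two wave functions in sum and difference variables
-/

set_option autoImplicit false
set_option linter.unusedSectionVars false

namespace Pool.Agent.N833.QRE2P

open Pool.Agent.N657.QR

variable {V : Type} [Fintype V] [DecidableEq V]

/-- sum and difference -/
def sd (z : (V → ℤ) × (V → ℤ)) : (V → ℤ) × (V → ℤ) := (z.1 + z.2, z.1 - z.2)

theorem sd_inj : Function.Injective (sd : (V → ℤ) × (V → ℤ) → (V → ℤ) × (V → ℤ)) := by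
  rintro ⟨n, m⟩ ⟨n', m'⟩ h
  have h1 : ∀ x, n x + m x = n' x + m' x := fun x => congrFun (congrArg Prod.fst h) x
  have h2 : ∀ x, n x - m x = n' x - m' x := fun x => congrFun (congrArg Prod.snd h) x
  apply Prod.ext
  · funext x
    have := h1 x
    have := h2 x
    show n x = n' x
    omega
  · funext x
    have := h1 x
    have := h2 x
    show m x = m' x
    omega

open Classical in
/-- the product in sum and difference variables -/
noncomputable def MM (φ χ : (V → ℤ) → ℝ) (p q : V → ℤ) : ℝ :=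
  if ∀ x, (2 : ℤ) ∣ p x - q x then φ (fun x => (p x + q x) / 2) * χ (fun x => (p x - q x) / 2) else 0

theorem MM_sd (φ χ : (V → ℤ) → ℝ) (n m : V → ℤ) : MM φ χ (n + m) (n - m) = φ n * χ m := by
  have h1 : ∀ x, (2 : ℤ) ∣ (n + m) x - (n - m) x := by
    intro x
    refine ⟨m x, ?_⟩
    simp only [Pi.add_apply, Pi.sub_apply]
    ring
  have h2 : (fun x => ((n + m) x + (n - m) x) / 2) = n := by
    funext x
    simp only [Pi.add_apply, Pi.sub_apply]
    omega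
  have h3 : (fun x => ((n + m) x - (n - m) x) / 2) = m := by
    funext x
    simp only [Pi.add_apply, Pi.sub_apply]
    omega
  rw [MM, if_pos h1, h2, h3]

theorem MM_range {φ χ : (V → ℤ) → ℝ} {p q : V → ℤ} (h : MM φ χ p q ≠ 0) :
    (∀ x, (2 : ℤ) ∣ p x - q x) ∧ ∃ n m, φ n ≠ 0 ∧ χ m ≠ 0 ∧ p = n + m ∧ q = n - m := by
  by_cases h1 : ∀ x, (2 : ℤ) ∣ p x - q x
  · rw [MM, if_pos h1] at h
    refine ⟨h1, _, _, left_ne_zero_of_mul h, right_ne_zero_of_mul h, ?_, ?_⟩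
    · funext x
      obtain ⟨c, hc⟩ := h1 x
      simp only [Pi.add_apply]
      omega
    · funext x
      obtain ⟨c, hc⟩ := h1 x
      simp only [Pi.sub_apply]
      omega
  · rw [MM, if_neg h1] at h
    exact absurd rfl h

/-- sums with a factor `M` in the new variables -/
theorem tsum_sd (φ χ : (V → ℤ) → ℝ) (F : (V → ℤ) × (V → ℤ) → ℝ)
    (hF : ∀ z, MM φ χ z.1 z.2 = 0 → F z = 0) :
    ∑' z, F z = ∑' z : (V → ℤ) × (V → ℤ), F (z.1 + z.2, z.1 - z.2) := by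
  symm
  refine Function.Injective.tsum_eq (g := sd) sd_inj (f := F) ?_
  intro z hz
  have h1 : MM φ χ z.1 z.2 ≠ 0 := fun h => hz (hF z h)
  obtain ⟨-, n, m, -, -, hp, hq⟩ := MM_range h1
  exact ⟨(n, m), Prod.ext hp.symm hq.symm⟩

theorem sum_fs {f : (V → ℤ) → ℝ} {g : (V → ℤ) → ℝ} (hf : fs f) (h : ∀ n, f n = 0 → g n = 0) :
    Summable g := by
  refine summable_of_hasFiniteSupport (Set.Finite.subset hf ?_)
  intro n hn
  exact fun h0 => hn (h n h0)

/-- the sum of a product -/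
theorem tsum_prod {φ χ f g : (V → ℤ) → ℝ} (hφ : fs φ) (hχ : fs χ) (hf : ∀ n, φ n = 0 → f n = 0)
    (hg : ∀ n, χ n = 0 → g n = 0) :
    ∑' z : (V → ℤ) × (V → ℤ), f z.1 * g z.2 = (∑' n, f n) * ∑' n, g n := by
  symm
  refine Summable.tsum_mul_tsum (sum_fs hφ hf) (sum_fs hχ hg) ?_
  refine summable_of_hasFiniteSupport (Set.Finite.subset (Set.Finite.prod hφ hχ) ?_)
  intro z hz
  constructor
  · exact fun h0 => hz (by show f z.1 * g z.2 = 0; rw [hf _ h0, zero_mul])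
  · exact fun h0 => hz (by show f z.1 * g z.2 = 0; rw [hg _ h0, mul_zero])

/-- the potential in the new variables -/
theorem pot_sd {K₁ K₂ : Matrix V V ℝ} (h₁ : K₁.PosSemidef) (h₂ : K₂.PosSemidef) (ν₁ ν₂ : V → ℝ)
    (n m : V → ℤ) :
    (∑ x, ∑ y, ((K₁ x y + K₂ x y) / 4 *
        (((((n + m) x : ℤ) : ℝ) - (ν₁ + ν₂) x) * ((((n + m) y : ℤ) : ℝ) - (ν₁ + ν₂) y) +
          ((((n - m) x : ℤ) : ℝ) - (ν₁ - ν₂) x) * ((((n - m) y : ℤ) : ℝ) - (ν₁ - ν₂) y))
      + (K₁ x y - K₂ x y) / 2 * (((((n + m) x : ℤ) : ℝ) - (ν₁ + ν₂) x) *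
          ((((n - m) y : ℤ) : ℝ) - (ν₁ - ν₂) y)))) = pot K₁ ν₁ n + pot K₂ ν₂ m := by
  have hs₁ : ∀ x y, K₁ x y = K₁ y x := fun x y => by
    have := h₁.1.apply x y
    simpa using this.symm
  have hs₂ : ∀ x y, K₂ x y = K₂ y x := fun x y => by
    have := h₂.1.apply x y
    simpa using this.symm
  have h0 : ∑ x, ∑ y, (K₁ x y - K₂ x y) / 2 *
      (((m x : ℝ) - ν₂ x) * ((n y : ℝ) - ν₁ y)) =
      ∑ x, ∑ y, (K₁ x y - K₂ x y) / 2 * (((n x : ℝ) - ν₁ x) * ((m y : ℝ) - ν₂ y)) := by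
    rw [Finset.sum_comm]
    refine Finset.sum_congr rfl fun x _ => Finset.sum_congr rfl fun y _ => ?_
    rw [hs₁ y x, hs₂ y x]
    ring
  have h3 : ∀ x y, ((K₁ x y + K₂ x y) / 4 *
        (((((n + m) x : ℤ) : ℝ) - (ν₁ + ν₂) x) * ((((n + m) y : ℤ) : ℝ) - (ν₁ + ν₂) y) +
          ((((n - m) x : ℤ) : ℝ) - (ν₁ - ν₂) x) * ((((n - m) y : ℤ) : ℝ) - (ν₁ - ν₂) y))
      + (K₁ x y - K₂ x y) / 2 * (((((n + m) x : ℤ) : ℝ) - (ν₁ + ν₂) x) *
          ((((n - m) y : ℤ) : ℝ) - (ν₁ - ν₂) y))) =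
      K₁ x y * (((n x : ℝ) - ν₁ x) * ((n y : ℝ) - ν₁ y)) +
      K₂ x y * (((m x : ℝ) - ν₂ x) * ((m y : ℝ) - ν₂ y)) +
      ((K₁ x y - K₂ x y) / 2 * (((m x : ℝ) - ν₂ x) * ((n y : ℝ) - ν₁ y)) -
      (K₁ x y - K₂ x y) / 2 * (((n x : ℝ) - ν₁ x) * ((m y : ℝ) - ν₂ y))) := by
    intro x y
    simp only [Pi.add_apply, Pi.sub_apply]
    push_cast
    ring
  rw [Finset.sum_congr rfl fun x _ => Finset.sum_congr rfl fun y _ => h3 x y]
  simp only [Finset.sum_add_distrib, Finset.sum_sub_distrib]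
  rw [h0, sub_self, add_zero]
  rfl

/-- **E2P** -/
theorem main : S_E2P := by
  intro V _ _ K₁ K₂ w₁ w₂ ν₁ ν₂ N₁ N₂ φ χ h₁ h₂ hφ hχ hN₁ hN₂
  refine ⟨MM φ χ, ?_, ?_, ?_, ?_⟩
  · refine Set.Finite.subset ((Set.Finite.prod hφ hχ).image sd) ?_
    intro z hz
    obtain ⟨-, n, m, hn, hm, hp, hq⟩ := MM_range hz
    exact ⟨(n, m), ⟨hn, hm⟩, Prod.ext hp.symm hq.symm⟩
  · intro p q h
    obtain ⟨h3, n, m, hn, hm, rfl, rfl⟩ := MM_range h
    refine ⟨h3, ?_, ?_⟩
    · rw [← hN₁ n hn, ← hN₂ m hm]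
      simp [tot, Finset.sum_add_distrib]
    · rw [← hN₁ n hn, ← hN₂ m hm]
      simp [tot, Finset.sum_sub_distrib]
  · rw [nr2, tsum_sd φ χ (fun z => MM φ χ z.1 z.2 ^ 2) (fun z hz => by
      show MM φ χ z.1 z.2 ^ 2 = 0
      rw [hz]; ring)]
    rw [nr, nr, ← tsum_prod hφ hχ (fun n hn => by rw [hn]; ring) (fun n hn => by rw [hn]; ring)]
    refine tsum_congr fun z => ?_
    rw [MM_sd]
    ring
  · -- the potential
    have hpot : (∑' z : (V → ℤ) × (V → ℤ),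
        (∑ x, ∑ y, ((K₁ x y + K₂ x y) / 4 *
          (((z.1 x : ℝ) - (ν₁ + ν₂) x) * ((z.1 y : ℝ) - (ν₁ + ν₂) y) +
            ((z.2 x : ℝ) - (ν₁ - ν₂) x) * ((z.2 y : ℝ) - (ν₁ - ν₂) y))
          + (K₁ x y - K₂ x y) / 2 * (((z.1 x : ℝ) - (ν₁ + ν₂) x) *
            ((z.2 y : ℝ) - (ν₁ - ν₂) y)))) * MM φ χ z.1 z.2 ^ 2) =
        po K₁ ν₁ φ * nr χ + nr φ * po K₂ ν₂ χ := by
      rw [tsum_sd φ χ _ (fun z hz => by rw [hz]; ring), po, po, nr, nr,
        ← tsum_prod hφ hχ (fun n hn => by rw [hn]; ring) (fun n hn => by rw [hn]; ring),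
        ← tsum_prod hφ hχ (fun n hn => by rw [hn]; ring) (fun n hn => by rw [hn]; ring),
        ← Summable.tsum_add]
      · refine tsum_congr fun z => ?_
        rw [MM_sd, pot_sd h₁ h₂]
        ring
      · refine summable_of_hasFiniteSupport (Set.Finite.subset (Set.Finite.prod hφ hχ) ?_)
        intro z hz
        constructor
        · exact fun h0 => hz (by show _ * φ z.1 ^ 2 * _ = (0 : ℝ); rw [h0]; ring)
        · exact fun h0 => hz (by show _ * χ z.2 ^ 2 = (0 : ℝ); rw [h0]; ring)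
      · refine summable_of_hasFiniteSupport (Set.Finite.subset (Set.Finite.prod hφ hχ) ?_)
        intro z hz
        constructor
        · exact fun h0 => hz (by show φ z.1 ^ 2 * _ = (0 : ℝ); rw [h0]; ring)
        · exact fun h0 => hz (by show _ * (_ * χ z.2 ^ 2) = (0 : ℝ); rw [h0]; ring)
    -- the hops
    have hop1 : ∀ x y, (∑' z : (V → ℤ) × (V → ℤ),
        MM φ χ (hp x y z.1) (hp x y z.2) * MM φ χ z.1 z.2) = cr x y φ * nr χ := by
      intro x y
      rw [tsum_sd φ χ _ (fun z hz => by rw [hz]; ring), cr, nr,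
        ← tsum_prod hφ hχ (fun n hn => by rw [hn]; ring) (fun n hn => by rw [hn]; ring)]
      refine tsum_congr fun z => ?_
      have e1 : hp x y (z.1 + z.2) = hp x y z.1 + z.2 := by
        unfold hp
        abel
      have e2 : hp x y (z.1 - z.2) = hp x y z.1 - z.2 := by
        unfold hp
        abel
      rw [MM_sd]
      show MM φ χ (hp x y (z.1 + z.2)) (hp x y (z.1 - z.2)) * _ = _
      rw [e1, e2, MM_sd]
      ring
    have hop2 : ∀ x y, (∑' z : (V → ℤ) × (V → ℤ),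
        MM φ χ (hp x y z.1) (hp y x z.2) * MM φ χ z.1 z.2) = nr φ * cr x y χ := by
      intro x y
      rw [tsum_sd φ χ _ (fun z hz => by rw [hz]; ring), cr, nr,
        ← tsum_prod hφ hχ (fun n hn => by rw [hn]; ring) (fun n hn => by rw [hn]; ring)]
      refine tsum_congr fun z => ?_
      have e1 : hp x y (z.1 + z.2) = z.1 + hp x y z.2 := by
        unfold hp
        abel
      have e2 : hp y x (z.1 - z.2) = z.1 - hp x y z.2 := by
        unfold hp
        abel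
      rw [MM_sd]
      show MM φ χ (hp x y (z.1 + z.2)) (hp y x (z.1 - z.2)) * _ = _
      rw [e1, e2, MM_sd]
      ring
    rw [E2, hpot]
    simp only [hop1, hop2, FF]
    have e : ∀ x y, w₁ x y * (cr x y φ * nr χ) + w₂ x y * (nr φ * cr x y χ) =
        w₁ x y * cr x y φ * nr χ + nr φ * (w₂ x y * cr x y χ) := fun x y => by ring
    simp only [e, Finset.sum_add_distrib, ← Finset.sum_mul, ← Finset.mul_sum]
    ring

end Pool.Agent.N833.QRE2P
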