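import Pool.Agent.N585.PA.Defs

/-!
# PA/3: a model of the formula gives a halting computation
-/

set_option autoImplicit false

namespace Pool.Agent.N833.PASound

open Pool.Agent.Helper948.Erode
open Pool.Agent.N585.PA

section sem

variable {A W : Type} {M : Model A W}

theorem sat_imp {φ ψ : Form A} {S : Set W} {w : W} :
    sat M (imp φ ψ) S w ↔ (sat M φ S w → sat M ψ S w) := by
  simp only [imp, sat, not_and, not_not]

theorem sat_tt {S : Set W} {w : W} : sat M tt S w := by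
  simp only [tt, sat, not_and, not_not]
  exact fun h => h

theorem sat_neg {φ : Form A} {S : Set W} {w : W} : sat M (.neg φ) S w ↔ ¬ sat M φ S w := Iff.rfl

theorem sat_and {φ ψ : Form A} {S : Set W} {w : W} :
    sat M (.and φ ψ) S w ↔ sat M φ S w ∧ sat M ψ S w := Iff.rfl

theorem sat_conj {l : List (Form A)} {S : Set W} {w : W} :
    sat M (conj l) S w ↔ ∀ φ ∈ l, sat M φ S w := by
  induction l with
  | nil => exact ⟨fun _ φ h => absurd h (by simp), fun _ => sat_tt⟩
  | cons φ l ih =>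
    rw [conj, sat_and, ih]
    simp

end sem

section main

variable {A W P : Type} {M : Model A W} {a b : A} {e : Lt P → ℕ}

/-- the value of register `j` at `x` is larger than `m` -/
def Val (M : Model A W) (a b : A) (e : Lt P → ℕ) (x : W) (j : Bool × Bool) (m : ℕ) : Prop :=
  ∃ u, Ed M a b e x u ∧ Pt M a b e (.ch j) m u

theorem pt_succ {l : Lt P} {m : ℕ} : ∀ {u : W}, Pt M a b e l (m + 1) u → Pt M a b e l m u := by
  induction m with
  | zero => exact fun h => h.1
  | succ m ih =>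
    intro u h
    obtain ⟨h1, v, h2, h3⟩ := h
    exact ⟨h1, v, h2, ih h3⟩

theorem val_mono {x : W} {j : Bool × Bool} {m m' : ℕ} (hm : m ≤ m') (h : Val M a b e x j m') :
    Val M a b e x j m := by
  induction m', hm using Nat.le_induction with
  | base => exact h
  | succ n _ ih =>
    obtain ⟨u, h1, h2⟩ := h
    exact ih ⟨u, h1, pt_succ h2⟩

/-- the semantic facts -/
structure Pl (M : Model A W) (a b : A) (e : Lt P → ℕ) : Prop where
  dia : ∀ (χ : Form A) (S : Set W) (w : W), (∀ l, ¬ M.V (e .vx) l → l ∈ S) →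
      (sat M (dia a b e χ) S w ↔ ∃ v, Ed M a b e w v ∧ v ∈ S ∧ sat M χ S v)
  sn : ∀ (l : Lt P) (n : ℕ) (w : W), w ∈ Sn M a b e l n ↔
      (M.V (e .vx) w → M.V (e l) w → Pt M a b e l n w)
  ge : ∀ (j : Bool × Bool) (n m : ℕ) (w : W), sat M (ge a b e j (m + 1)) (Sn M a b e (.ch j) n) w ↔
      ∃ v, Ed M a b e w v ∧ Pt M a b e (.ch j) (n + m) v

variable (H : Pl M a b e)
include H

theorem Pl.sub (l : Lt P) (n : ℕ) : ∀ x, ¬ M.V (e .vx) x → x ∈ Sn M a b e l n :=
  fun x hx => (H.sn l n x).2 fun h => absurd h hx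

theorem Pl.box {χ : Form A} {S : Set W} {w : W} (hS : ∀ l, ¬ M.V (e .vx) l → l ∈ S) :
    sat M (box a b e χ) S w ↔ ∀ v, Ed M a b e w v → v ∈ S → sat M χ S v := by
  rw [Pool.Agent.N585.PA.box, sat_neg, H.dia _ S w hS]
  simp only [sat_neg]
  push Not
  rfl

theorem Pl.ge0 {j : Bool × Bool} {m : ℕ} {w : W} :
    sat M (Pool.Agent.N585.PA.ge a b e j (m + 1)) Set.univ w ↔ Val M a b e w j m := by
  have := H.ge j 0 m w
  rw [zero_add] at this
  exact this

theorem Pl.ge' {j : Bool × Bool} {n m : ℕ} {w : W} :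
    sat M (Pool.Agent.N585.PA.ge a b e j (m + 1)) (Sn M a b e (.ch j) n) w ↔
      Val M a b e w j (n + m) := H.ge j n m w

/-- the effect of one change -/
theorem Pl.chg {d : ℤ} {j : Bool × Bool} {c c' : W} {r : ℤ}
    (hs : sat M (chg a b e d j) Set.univ c) (he : Ed M a b e c c') (hcfg : M.V (e .cfg) c')
    (hc : ¬ M.V (e (.ch j)) c) (hc' : ¬ M.V (e (.ch j)) c') (hr0 : 0 ≤ r)
    (hr : ∀ m : ℕ, Val M a b e c j m ↔ (m : ℤ) < r) (m : ℕ) :
    Val M a b e c' j m ↔ (m : ℤ) < r + d := by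
  obtain ⟨h1, h2⟩ := hs
  rw [H.box fun l _ => Set.mem_univ l] at h1
  have h3 := sat_imp.1 (h1 c' he (Set.mem_univ _)) hcfg
  have hmem : ∀ (x : W), ¬ M.V (e (.ch j)) x → ∀ n, x ∈ Sn M a b e (.ch j) n :=
    fun x hx n => (H.sn (.ch j) n x).2 fun _ h => absurd h hx
  have h4 : ∀ n : ℕ, Val M a b e c j (n + (-d).toNat) ↔ Val M a b e c' j (n + d.toNat) := by
    intro n
    have h5 := h2 n (hmem c hc n)
    obtain ⟨h6, h7⟩ := h5
    have h6' := sat_imp.1 h6
    have h7' := sat_imp.1 h7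
    constructor
    · intro h
      have h8 := (H.box (H.sub _ _)).1 (h6' ((H.ge').2 h)) c' he (hmem c' hc' n)
      exact (H.ge').1 (sat_imp.1 h8 hcfg)
    · intro h
      by_contra h9
      have h8 := (H.box (H.sub _ _)).1 (h7' (fun h10 => h9 ((H.ge').1 h10))) c' he (hmem c' hc' n)
      exact (sat_imp.1 h8 hcfg) ((H.ge').2 h)
  rcases Nat.lt_or_ge m d.toNat with h | h
  · constructor
    · intro _
      omega
    · intro _
      obtain ⟨k, hk⟩ : ∃ k, d.toNat = k + 1 := ⟨d.toNat - 1, by omega⟩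
      rw [hk, H.ge0] at h3
      exact val_mono (by omega) h3
  · obtain ⟨n, rfl⟩ := Nat.exists_eq_add_of_le h
    rw [add_comm d.toNat n, ← h4 n, hr]
    push_cast
    omega

end main

section run

variable {A W P : Type} [DecidableEq A] {M : Model A W} {a b : A} {e : Lt P → ℕ}

/-- the relation of the common knowledge operator -/
def Rl (M : Model A W) (a b : A) (x y : W) : Prop :=
  x ∈ (Set.univ : Set W) ∧ y ∈ (Set.univ : Set W) ∧ ∃ a' ∈ ({a, b} : Finset A), (M.r a') x y

/-- the invariant -/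
structure Inv (M : Model A W) (a b : A) (e : Lt P → ℕ) (w : W) (q : Option P)
    (r : Bool × Bool → ℤ) (c : W) : Prop where
  reach : Relation.TransGen (Rl M a b) w c
  vx : M.V (e .vx) c
  cfg : M.V (e .cfg) c
  st : M.V (e (.st q)) c
  val : ∀ j (m : ℕ), Val M a b e c j m ↔ (m : ℤ) < r j

theorem mem_regs (j : Bool × Bool) : j ∈ regs := by
  rcases j with ⟨_ | _, _ | _⟩ <;> simp [regs]

theorem step_inv (H : Pl M a b e) {D : DM P (Bool × Bool)} {Ps : List P} {w : W}
    (hPs : ∀ p, p ∈ Ps) (hg : sat M (glob a b e D Ps) Set.univ w) {p : P}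
    {r : Bool × Bool → ℤ} (hr : ∀ j, 0 ≤ r j) {c : W} (hc : Inv M a b e w (some p) r c) :
    ∃ c', Ed M a b e c c' ∧ Inv M a b e w (D.st (some p, r)).1 (D.st (some p, r)).2 c' := by
  have key : ∀ v, Relation.TransGen (Rl M a b) w v → M.V (e .vx) v → M.V (e .cfg) v →
      (∀ j, ¬ M.V (e (.ch j)) v) ∧ ∀ p, sat M (tr a b e D p) Set.univ v := by
    intro v hv h1 h2
    have h3 := sat_imp.1 (hg v hv) ⟨h1, h2⟩
    refine ⟨fun j => ?_, fun p => ?_⟩
    · have h4 := sat_conj.1 h3.1 (.neg (at' e (.ch j))) (by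
        rw [List.mem_map]
        exact ⟨j, mem_regs j, rfl⟩)
      exact h4
    · exact sat_conj.1 h3.2 _ (by
        rw [List.mem_map]
        exact ⟨p, hPs p, rfl⟩)
  obtain ⟨hex, htr⟩ := key c hc.reach hc.vx hc.cfg
  have h1 := sat_imp.1 (htr p) hc.st
  obtain ⟨h2, h3, h4⟩ := h1
  rw [H.dia _ _ _ fun l _ => Set.mem_univ l] at h2
  obtain ⟨c', he, -, hcfg⟩ := h2
  have hreach : Relation.TransGen (Rl M a b) w c' := by
    obtain ⟨l, hl1, -, hl2, -⟩ := he
    refine (hc.reach.tail (b := c) (c := l) ⟨Set.mem_univ _, Set.mem_univ _, a, by simp, hl1⟩).tail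
      ⟨Set.mem_univ _, Set.mem_univ _, b, by simp, hl2⟩
  have hvx : M.V (e .vx) c' := by
    obtain ⟨l, -, -, -, h⟩ := he
    exact h
  obtain ⟨hex', -⟩ := key c' hreach hvx hcfg
  have hge : sat M (ge a b e (D.reg p) 1) Set.univ c ↔ D.br p r = true := by
    rw [H.ge0, hc.val, DM.br, decide_eq_true_iff]
    norm_num
  have hbr : sat M (brf a b e D p (D.br p r)) Set.univ c := by
    rcases hb : D.br p r with _ | _
    · refine sat_imp.1 h4 fun h => ?_
      rw [hge.1 h] at hb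
      exact absurd hb (by simp)
    · exact sat_imp.1 h3 (hge.2 hb)
  refine ⟨c', he, hreach, hvx, hcfg, ?_, ?_⟩
  · have h5 := hbr.1
    rw [H.box fun l _ => Set.mem_univ l] at h5
    exact sat_imp.1 (h5 c' he (Set.mem_univ _)) hcfg
  · intro j m
    have h5 := sat_conj.1 hbr.2 (chg a b e (D.vec p (D.br p r) j) j) (by
      rw [List.mem_map]
      exact ⟨j, mem_regs j, rfl⟩)
    exact H.chg h5 he hcfg (hex j) (hex' j) (hr j) (hc.val j) m

theorem nonneg_iter (D : DM P (Bool × Bool)) (x : Option P × (Bool × Bool → ℤ))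
    (h : ∀ j, 0 ≤ x.2 j) (t : ℕ) : ∀ j, 0 ≤ (D.st^[t] x).2 j := by
  induction t with
  | zero => exact h
  | succ t ih =>
    rw [Function.iterate_succ_apply']
    exact D.st_nonneg _ ih

theorem pt_cfg (H : Pl M a b e) {D : DM P (Bool × Bool)} {Ps : List P} {w : W}
    (hPs : ∀ p, p ∈ Ps) (hg : sat M (glob a b e D Ps) Set.univ w)
    {x : Option P × (Bool × Bool → ℤ)} (hx : ∀ j, 0 ≤ x.2 j) (hn : ¬ D.Halts x) (n : ℕ) :
    ∀ (t : ℕ) (c : W), Inv M a b e w (D.st^[t] x).1 (D.st^[t] x).2 c →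
      (∃ c', Ed M a b e c c' ∧ Inv M a b e w (D.st^[t + 1] x).1 (D.st^[t + 1] x).2 c') ∧
      Pt M a b e .cfg n c := by
  have step : ∀ (t : ℕ) (c : W), Inv M a b e w (D.st^[t] x).1 (D.st^[t] x).2 c →
      ∃ c', Ed M a b e c c' ∧ Inv M a b e w (D.st^[t + 1] x).1 (D.st^[t + 1] x).2 c' := by
    intro t c hc
    have h0 := nonneg_iter D x hx t
    rw [Function.iterate_succ_apply']
    rcases hy : D.st^[t] x with ⟨q, r⟩
    rw [hy] at hc h0
    rcases q with _ | p
    · exact absurd ⟨t, by rw [hy]⟩ hn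
    · exact step_inv H hPs hg h0 hc
  induction n with
  | zero => exact fun t c hc => ⟨step t c hc, hc.cfg⟩
  | succ n ih =>
    intro t c hc
    obtain ⟨c', h1, h2⟩ := step t c hc
    exact ⟨⟨c', h1, h2⟩, hc.cfg, c', h1, (ih (t + 1) c' h2).2⟩

end run

theorem stmSound (h : StmPeel) : StmSound := by
  intro A W P _ M a b e D Ps p0 N w hPs hroot
  obtain ⟨g1, g2, g3⟩ := h A W P M a b e
  have H : Pl M a b e := ⟨g1, g2, g3⟩
  by_contra hn
  have hall := sat_conj.1 hroot
  have hvx := hall (at' e .vx) (by simp)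
  have hcfg := hall (at' e .cfg) (by simp)
  have hst := hall (at' e (.st (some p0))) (by simp)
  have hini := sat_conj.1 (hall (ini0 a b e N) (by simp))
  have hstar := hall (.neg (.star (peel a b e .cfg) (dia a b e (at' e .cfg)))) (by simp)
  have hglob := hall (glob a b e D Ps) (by simp)
  have hx : ∀ j, 0 ≤ (v4 (N : ℤ) 0 0 0 : Bool × Bool → ℤ) j := by
    rintro ⟨_ | _, _ | _⟩ <;> simp [v4]
  -- the invariant at the beginning
  have hinv : Inv M a b e w (some p0) (v4 N 0 0 0) w := by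
    refine ⟨Relation.TransGen.single ⟨Set.mem_univ _, Set.mem_univ _, a, by simp,
      (M.r a).refl w⟩, hvx, hcfg, hst, ?_⟩
    have hz : ∀ j, ¬ sat M (ge a b e j 1) Set.univ w → ∀ m : ℕ,
        Val M a b e w j m ↔ (m : ℤ) < 0 := by
      intro j hj m
      rw [H.ge0] at hj
      constructor
      · intro h1
        exact absurd (val_mono (Nat.zero_le m) h1) hj
      · intro h1
        omega
    rintro ⟨_ | _, _ | _⟩ m
    · exact hz _ (hini (.neg (ge a b e (false, false) 1)) (by simp)) m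
    · have h1 := hini (.and (ge a b e (false, true) N) (.neg (ge a b e (false, true) (N + 1))))
        (by simp)
      obtain ⟨h2, h3⟩ := h1
      rw [sat_neg, H.ge0] at h3
      show _ ↔ (m : ℤ) < N
      constructor
      · intro h4
        by_contra h5
        exact h3 (val_mono (by omega) h4)
      · intro h4
        obtain ⟨k, rfl⟩ : ∃ k, N = k + 1 := ⟨N - 1, by omega⟩
        rw [H.ge0] at h2
        exact val_mono (by omega) h2
    · exact hz _ (hini (.neg (ge a b e (true, false) 1)) (by simp)) m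
    · exact hz _ (hini (.neg (ge a b e (true, true) 1)) (by simp)) m
  obtain ⟨c1, hc1, hc1'⟩ := (pt_cfg H (x := (some p0, v4 N 0 0 0)) hPs hglob hx hn 0 0 w hinv).1
  apply hstar
  intro n _
  have h5 : c1 ∈ Sn M a b e .cfg n := by
    rw [H.sn]
    intro _ _
    exact (pt_cfg H (x := (some p0, v4 N 0 0 0)) hPs hglob hx hn n 1 c1 hc1').2
  exact (H.dia _ _ _ (H.sub .cfg n)).2 ⟨c1, hc1, h5, hc1'.cfg⟩

end Pool.Agent.N833.PASound
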